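import Pool.Agent.Helper51.LT.St

/-!
# Project LT: module CJC (large coefficient of the perturbation)
-/

set_option autoImplicit false

namespace Pool.Agent.Helper79.LT

open Complex MeasureTheory Set Metric Filter Topology
open scoped Real ENNReal
open Pool.Agent.Helper60.Rel (LH tc Admissible ClassS LogData om th)
open Pool.Agent.Helper51.LT

/-- coefficient bound -/
theorem tc_le (hTcf : StTcf) (d b : ℝ) (f : ℂ → ℂ) (n : ℕ) (hd : 0 < d)
    (hf : DifferentiableOn ℂ f (ball 0 (1 + d)))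
    (hb : ∀ z ∈ ball (0 : ℂ) (1 + d), ‖f z‖ ≤ b) :
    ‖tc f n‖ ≤ b * (1 + d) ^ (-(n : ℝ)) := by
  have h1 : ∀ r : ℝ, 0 < r → r < 1 + d → ‖tc f n‖ ≤ b * r ^ (-(n : ℝ)) := by
    intro r hr hr1
    have h2 := hTcf f r n hr (hf.mono (closedBall_subset_ball hr1)) ⟨1 + d, hr1, hf⟩
    have h3 : ‖∫ t in (0 : ℝ)..(2 * π), f (circleMap 0 r t) * (circleMap 0 r t ^ n)⁻¹‖ ≤
        (b * r ^ (-(n : ℝ))) * |2 * π - 0| := by
      apply intervalIntegral.norm_integral_le_of_norm_le_const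
      intro t _
      rw [norm_mul, norm_inv, norm_pow, norm_circleMap_zero, abs_of_pos hr,
        Real.rpow_neg hr.le, Real.rpow_natCast]
      apply mul_le_mul_of_nonneg_right
      · apply hb
        rw [mem_ball_zero_iff, norm_circleMap_zero, abs_of_pos hr]
        exact hr1
      · positivity
    have hpi : |2 * π - 0| = 2 * π := by
      rw [sub_zero, abs_of_pos (by positivity)]
    rw [hpi] at h3
    have h4 : ‖(((2 * π)⁻¹ : ℝ) : ℂ)‖ = (2 * π)⁻¹ := by
      rw [Complex.norm_real, Real.norm_eq_abs, abs_of_pos (by positivity)]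
    rw [h2, norm_mul, h4]
    calc (2 * π)⁻¹ * ‖∫ t in (0 : ℝ)..(2 * π), f (circleMap 0 r t) * (circleMap 0 r t ^ n)⁻¹‖
        ≤ (2 * π)⁻¹ * ((b * r ^ (-(n : ℝ))) * (2 * π)) := by
          apply mul_le_mul_of_nonneg_left h3; positivity
      _ = b * r ^ (-(n : ℝ)) := by field_simp
  have hcont : ContinuousAt (fun r : ℝ => b * r ^ (-(n : ℝ))) (1 + d) := by
    apply ContinuousAt.mul continuousAt_const
    exact Real.continuousAt_rpow_const _ _ (Or.inl (by positivity))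
  have ht : Tendsto (fun r : ℝ => b * r ^ (-(n : ℝ))) (𝓝[<] (1 + d))
      (𝓝 (b * (1 + d) ^ (-(n : ℝ)))) := hcont.tendsto.mono_left nhdsWithin_le_nhds
  apply ge_of_tendsto ht
  have hmem : Ioo (0 : ℝ) (1 + d) ∈ 𝓝[<] (1 + d) := Ioo_mem_nhdsLT (by positivity)
  filter_upwards [hmem] with r hr
  exact h1 r hr.1 hr.2

theorem hCJC (hTcf : StTcf) (hTcd : StTcd) : StCJC := by
  intro d b f u p M L hd hd1 hf hb hp hu
  have hudiff : DifferentiableOn ℂ u (ball 0 (1 + d)) := fun z hz =>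
    (hu z hz).differentiableAt.differentiableWithinAt
  have hdu : ∀ z ∈ ball (0 : ℂ) (1 + d), deriv u z = 1 / 2000 * deriv f z * z ^ M * p z :=
    fun z hz => (hu z hz).deriv
  have hFdiff : DifferentiableOn ℂ (fun z => f z + u z) (ball 0 (1 + d)) := hf.add hudiff
  have hsub : closedBall (0 : ℂ) 1 ⊆ ball 0 (1 + d) := closedBall_subset_ball (by linarith)
  have hcirc : ∀ t : ℝ, circleMap 0 1 t ∈ ball (0 : ℂ) (1 + d) := by
    intro t
    rw [mem_ball_zero_iff, norm_circleMap_zero, abs_one]; linarith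
  have hcn : ∀ t : ℝ, ‖circleMap 0 1 t‖ = 1 := by
    intro t
    rw [norm_circleMap_zero, abs_one]
  have hc0 : ∀ t : ℝ, circleMap 0 1 t ≠ 0 := by
    intro t h
    have := hcn t
    rw [h, norm_zero] at this
    exact zero_ne_one this
  have hdf' : DifferentiableOn ℂ (deriv f) (ball 0 (1 + d)) := hf.deriv isOpen_ball
  have hdu' : DifferentiableOn ℂ (deriv u) (ball 0 (1 + d)) := hudiff.deriv isOpen_ball
  have hdF' : DifferentiableOn ℂ (deriv (fun z => f z + u z)) (ball 0 (1 + d)) :=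
    hFdiff.deriv isOpen_ball
  have hderF : ∀ z ∈ ball (0 : ℂ) (1 + d),
      deriv (fun z => f z + u z) z = deriv f z + deriv u z := by
    intro z hz
    exact deriv_add (hf.differentiableAt (isOpen_ball.mem_nhds hz))
      (hudiff.differentiableAt (isOpen_ball.mem_nhds hz))
  -- the two representations
  have hA := hTcf (deriv (fun z => f z + u z)) 1 (M + L) one_pos (hdF'.mono hsub)
    ⟨1 + d, by linarith, hdF'⟩
  have hB := hTcf (deriv f) 1 (M + L) one_pos (hdf'.mono hsub) ⟨1 + d, by linarith, hdf'⟩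
  have hA1 := hTcd.1 (fun z => f z + u z) (M + L)
  have hB1 := hTcd.1 f (M + L)
  -- continuity on the circle
  have hcm : Continuous (fun t : ℝ => circleMap (0 : ℂ) 1 t) := continuous_circleMap 0 1
  have hcf : Continuous (fun t : ℝ => deriv f (circleMap 0 1 t)) :=
    hdf'.continuousOn.comp_continuous hcm hcirc
  have hcu : Continuous (fun t : ℝ => deriv u (circleMap 0 1 t)) :=
    hdu'.continuousOn.comp_continuous hcm hcirc
  have hci : Continuous (fun t : ℝ => (circleMap (0 : ℂ) 1 t ^ (M + L))⁻¹) :=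
    (hcm.pow (M + L)).inv₀ (fun t => pow_ne_zero _ (hc0 t))
  have hIA : IntervalIntegrable
      (fun t : ℝ => deriv f (circleMap 0 1 t) * (circleMap 0 1 t ^ (M + L))⁻¹) volume 0 (2 * π) :=
    (hcf.mul hci).intervalIntegrable _ _
  have hIB : IntervalIntegrable
      (fun t : ℝ => deriv u (circleMap 0 1 t) * (circleMap 0 1 t ^ (M + L))⁻¹) volume 0 (2 * π) :=
    (hcu.mul hci).intervalIntegrable _ _
  have hsum : ∫ t in (0 : ℝ)..(2 * π),
      deriv (fun z => f z + u z) (circleMap 0 1 t) * (circleMap 0 1 t ^ (M + L))⁻¹ =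
      (∫ t in (0 : ℝ)..(2 * π), deriv f (circleMap 0 1 t) * (circleMap 0 1 t ^ (M + L))⁻¹) +
      ∫ t in (0 : ℝ)..(2 * π), deriv u (circleMap 0 1 t) * (circleMap 0 1 t ^ (M + L))⁻¹ := by
    rw [← intervalIntegral.integral_add hIA hIB]
    apply intervalIntegral.integral_congr
    intro t _
    show deriv (fun z => f z + u z) (circleMap 0 1 t) * (circleMap 0 1 t ^ (M + L))⁻¹ =
      deriv f (circleMap 0 1 t) * (circleMap 0 1 t ^ (M + L))⁻¹ +
      deriv u (circleMap 0 1 t) * (circleMap 0 1 t ^ (M + L))⁻¹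
    rw [hderF _ (hcirc t)]; ring
  set J : ℂ := ∫ t in (0 : ℝ)..(2 * π), deriv u (circleMap 0 1 t) *
    (circleMap 0 1 t ^ (M + L))⁻¹ with hJ
  have key : (((M + L : ℕ) : ℂ) + 1) * tc (fun z => f z + u z) (M + L + 1) =
      (((M + L : ℕ) : ℂ) + 1) * tc f (M + L + 1) + (((2 * π)⁻¹ : ℝ) : ℂ) * J := by
    rw [← hA1, hA, hsum, mul_add, ← hB, hB1]
  -- lower bound for J
  have hre : ∀ t : ℝ, 3 / 8000 * ‖deriv f (circleMap 0 1 t)‖ ≤
      (deriv u (circleMap 0 1 t) * (circleMap 0 1 t ^ (M + L))⁻¹).re := by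
    intro t
    have h1 := hp (circleMap 0 1 t) (hcn t)
    have h2 : deriv u (circleMap 0 1 t) * (circleMap 0 1 t ^ (M + L))⁻¹ =
        ((1 / 2000 : ℝ) : ℂ) * (deriv f (circleMap 0 1 t) * p (circleMap 0 1 t) *
          (circleMap 0 1 t ^ L)⁻¹) := by
      rw [hdu _ (hcirc t), pow_add]
      have := pow_ne_zero M (hc0 t)
      have := pow_ne_zero L (hc0 t)
      push_cast
      field_simp
    rw [h2, Complex.re_ofReal_mul]
    have h3 := (Complex.abs_re_le_norm (deriv f (circleMap 0 1 t) * p (circleMap 0 1 t) *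
          (circleMap 0 1 t ^ L)⁻¹ - (‖deriv f (circleMap 0 1 t)‖ : ℂ))).trans h1
    rw [Complex.sub_re, Complex.ofReal_re] at h3
    have h4 := (abs_le.mp h3).1
    linarith
  have hJre : J.re = ∫ t in (0 : ℝ)..(2 * π),
      (deriv u (circleMap 0 1 t) * (circleMap 0 1 t ^ (M + L))⁻¹).re := by
    have := (Complex.reCLM.intervalIntegral_comp_comm hIB)
    rw [hJ]
    exact this.symm
  have hJ1 : 3 / 8000 * IM f 1 ≤ J.re := by
    rw [hJre]
    unfold IM
    rw [← intervalIntegral.integral_const_mul]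
    apply intervalIntegral.integral_mono_on (by positivity)
    · exact (continuous_const.mul hcf.norm).intervalIntegrable _ _
    · exact (Complex.continuous_re.comp (hcu.mul hci)).intervalIntegrable _ _
    · intro t _
      exact hre t
  have hJ2 : 3 / 8000 * IM f 1 ≤ ‖J‖ := hJ1.trans ((le_abs_self _).trans (Complex.abs_re_le_norm J))
  have hpi : ‖(((2 * π)⁻¹ : ℝ) : ℂ)‖ = (2 * π)⁻¹ := by
    rw [Complex.norm_real, Real.norm_eq_abs, abs_of_pos (by positivity)]
  have hTn : ‖((M + L : ℕ) : ℂ) + 1‖ = ((M + L + 1 : ℕ) : ℝ) := by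
    have : ((M + L : ℕ) : ℂ) + 1 = ((M + L + 1 : ℕ) : ℂ) := by push_cast; ring
    rw [this, Complex.norm_natCast]
  have hnorm := congrArg norm key
  rw [norm_mul, hTn] at hnorm
  rw [hnorm]
  have hlow : ‖(((2 * π)⁻¹ : ℝ) : ℂ) * J‖ - ‖(((M + L : ℕ) : ℂ) + 1) * tc f (M + L + 1)‖ ≤
      ‖(((M + L : ℕ) : ℂ) + 1) * tc f (M + L + 1) + (((2 * π)⁻¹ : ℝ) : ℂ) * J‖ := by
    have := norm_sub_norm_le ((((2 * π)⁻¹ : ℝ) : ℂ) * J) (-((((M + L : ℕ) : ℂ) + 1) * tc f (M + L + 1)))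
    rw [norm_neg, sub_neg_eq_add, add_comm ((((2 * π)⁻¹ : ℝ) : ℂ) * J)] at this
    exact this
  refine le_trans ?_ hlow
  rw [norm_mul, norm_mul, hTn, hpi]
  have ht := tc_le hTcf d b f (M + L + 1) hd hf hb
  have h1 : ((M + L + 1 : ℕ) : ℝ) * ‖tc f (M + L + 1)‖ ≤
      ((M + L + 1 : ℕ) : ℝ) * b * (1 + d) ^ (-((M + L + 1 : ℕ) : ℝ)) := by
    rw [mul_assoc]
    exact mul_le_mul_of_nonneg_left ht (Nat.cast_nonneg _)
  have h2 : 3 / 16000 / π * IM f 1 ≤ (2 * π)⁻¹ * ‖J‖ := by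
    have h3 : (2 * π)⁻¹ * (3 / 8000 * IM f 1) ≤ (2 * π)⁻¹ * ‖J‖ :=
      mul_le_mul_of_nonneg_left hJ2 (by positivity)
    refine le_trans (le_of_eq ?_) h3
    have := Real.pi_pos
    field_simp
    ring
  linarith

end Pool.Agent.Helper79.LT
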