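import Pool.Agent.Helper69.LT.St
import Pool.Agent.Helper84.LE.BKP

/-!
# Project LT, module Sum1: the truncated series, everything and the remainder
-/

set_option autoImplicit false

open scoped BigOperators ENNReal
open Pool.LE Pool.NL

namespace Pool.LT

namespace Sum1M

theorem iter {V : Type} [DecidableEq V] (hM : SMaj) {L : Finset V} {ρ k : V → ℝ} {lam : ENNReal}
    {E : Finset (Sym2 V)} {p : ℝ} {T K q : V → V → ENNReal} {nbf : V → Finset V}
    {B eps eta : ENNReal} {D : ℕ} (hE : Env0 E p L T K q nbf k B eps eta D)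
    (hρ : ∀ y, 0 ≤ ρ y ∧ ρ y ≤ 1) {X : Type} (qx : V → X → ENNReal)
    (hq : ∀ v u b x, b ∈ nbf u → qx v x ≤ 4 * q v u * qx b x)
    (Φ : Set V → V → X → DualNumber ℝ) (c : ENNReal) (hΦ : Maj K qx lam Φ c) (N : ℕ) :
    Maj K qx lam ((Lop E p L (dw ρ k))^[N] Φ) (c * (40 * (1 + 21 * lam * eta) * B * eps) ^ N) := by
  induction N with
  | zero => rw [pow_zero, mul_one]; exact hΦ
  | succ N ih =>
    rw [Function.iterate_succ_apply', pow_succ, ← mul_assoc]
    exact hM V L ρ k lam E p T K q nbf B eps eta D hE hρ X qx hq _ _ ih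

open Classical in
theorem single {V : Type} [DecidableEq V] {X : Type} {K : V → V → ENNReal} {qx : V → X → ENNReal}
    {lam : ENNReal} {Φ : Set V → V → X → DualNumber ℝ} {c : ENNReal} (h : Maj K qx lam Φ c)
    (v : V) : ∑' x : X, qx v x * Nl lam (Φ {v} v x) ≤ c * kp K 24 v v := by
  refine (h {v} v).trans ?_
  rw [tsum_eq_single v]
  · rw [if_pos (Set.mem_singleton v)]
  · intro s hs
    rw [if_neg (fun h' => hs (Set.mem_singleton_iff.1 h'))]

theorem c22 {lam eta : ENNReal} (h : lam * eta ≤ 1) : 1 + 21 * lam * eta ≤ 22 := by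
  calc 1 + 21 * lam * eta = 1 + 21 * (lam * eta) := by ring
    _ ≤ 1 + 21 * 1 := by gcongr
    _ = 22 := by norm_num

theorem half {lam eta B eps : ENNReal} (h : lam * eta ≤ 1) (h2 : 40 * 22 * B * eps ≤ 1 / 2) :
    40 * (1 + 21 * lam * eta) * B * eps ≤ 1 / 2 := by
  refine le_trans ?_ h2
  have := c22 h
  gcongr

end Sum1M

open Sum1M in
theorem hSum1 : SLin → SMaj → SMaj0 → SSum1 := by
  intro hL hM hM0 V _ L ρ k lam E p T K q nbf B eps eta D hE hρ hle heps v
  obtain ⟨m1, m2, m3⟩ := hM0 V L ρ k lam E p T K q nbf B eps eta D hE hρ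
  have hq : ∀ v u b x, b ∈ nbf u → q v x ≤ 4 * q v u * q b x := by
    intro v u b x hb
    calc q v x ≤ q v u * q u x := hE.wk.q_mul v u x
      _ ≤ q v u * (q u b * q b x) := mul_le_mul' le_rfl (hE.wk.q_mul u b x)
      _ ≤ q v u * (4 * q b x) := mul_le_mul' le_rfl (mul_le_mul' (hE.q4 u b hb) le_rfl)
      _ = 4 * q v u * q b x := by ring
  have hKK : ∀ x, 1 ≤ K x x := by
    intro x
    calc (1 : ENNReal) = 1 * 1 := by rw [one_mul]
      _ ≤ q x x * kc T T x x := mul_le_mul' (hE.wk.one_le_q x x) (hE.wk.one_le_T x)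
      _ ≤ K x x := hE.wk.le_K x x
  have hB : kp K 24 v v ≤ B := (kp_le_kp hKK (by norm_num) v v).trans (hE.wk.le_B v v)
  have h22 := c22 hle
  have hhf := half hle heps
  refine ⟨?_, ?_, ?_⟩
  · intro N
    have h1 := single (iter hM hE hρ q hq _ _ m1 N) v
    refine h1.trans ?_
    calc 10 * (1 + 21 * lam * eta) * B ^ 2 * (40 * (1 + 21 * lam * eta) * B * eps) ^ N *
          kp K 24 v v ≤ 10 * 22 * B ^ 2 * (1 / 2) ^ N * B := by gcongr
      _ = 220 * B ^ 3 * (1 / 2) ^ N := by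
        have : (10 : ENNReal) * 22 = 220 := by norm_num
        rw [this]; ring
  · intro N
    have hq2 : ∀ v u b (x : V × V), b ∈ nbf u → (if x.2 ∈ nbf x.1 then q v x.1 else 0) ≤
        4 * q v u * (if x.2 ∈ nbf x.1 then q b x.1 else 0) := by
      intro v u b x hb
      split_ifs
      · exact hq v u b x.1 hb
      · exact bot_le
    have h1 := single (iter hM hE hρ (fun v (ub : V × V) => if ub.2 ∈ nbf ub.1 then q v ub.1 else 0)
      hq2 _ _ m2 N) v
    refine h1.trans ?_
    calc D * (10 * (1 + 21 * lam * eta) * B ^ 2) * (40 * (1 + 21 * lam * eta) * B * eps) ^ N *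
          kp K 24 v v ≤ D * (10 * 22 * B ^ 2) * (1 / 2) ^ N * B := by gcongr
      _ = 220 * D * B ^ 3 * (1 / 2) ^ N := by
        have : (10 : ENNReal) * 22 = 220 := by norm_num
        rw [this]; ring
  · intro N x
    have hq3 : ∀ (v u b : V) (_ : Unit), b ∈ nbf u → (1 : ENNReal) ≤ 4 * q v u * 1 := by
      intro v u b _ _
      calc (1 : ENNReal) = 1 * 1 * 1 := by norm_num
        _ ≤ 4 * q v u * 1 := by
          have := hE.wk.one_le_q v u
          gcongr
          norm_num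
    have h1 := single (iter hM hE hρ (fun (_ : V) (_ : Unit) => 1) hq3 _ _ (m3 x) N) v
    rw [tsum_eq_single () (fun b hb => absurd rfl hb), one_mul] at h1
    obtain ⟨-, -, l3, -⟩ := hL V (DualNumber ℝ) L (dw ρ k) E p V
    rw [l3 (DT E p L (dw ρ k)) {v} v x N]
    refine h1.trans ?_
    calc (1 + 3 * lam * ∑ y ∈ L, ENNReal.ofReal |k y|) *
          (40 * (1 + 21 * lam * eta) * B * eps) ^ N * kp K 24 v v ≤
          (1 + 3 * lam * ∑ y ∈ L, ENNReal.ofReal |k y|) * (1 / 2) ^ N * B := by gcongr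
      _ = _ := by ring

end Pool.LT
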